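import Pool.Agent.H85.TU.Targets2

/-!
# Prefix classes: the parts of the matrices are Borel
-/

set_option autoImplicit false

namespace Pool.Agent.H74.TU

open Set Pool.Agent.H85.TU

section

variable {C : Type} [MeasurableSpace C] {X : Type} [MeasurableSpace X]

theorem m_lab {n : ℕ} (w : Fin 2 → Fin n) : Measurable fun t : TB C n => t.1 () w :=
  (measurable_pi_apply w).comp ((measurable_pi_apply ()).comp measurable_fst)

theorem m_eq {n : ℕ} (i j : Fin n) : Measurable fun t : TB C n => t.2 i j :=
  (measurable_pi_apply j).comp ((measurable_pi_apply i).comp measurable_snd)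

theorem m_reidx {m n : ℕ} (f : Fin m → Fin n) :
    Measurable fun t : TB C n => (reidx f t : TB C m) := by
  refine Measurable.prodMk ?_ ?_
  · refine measurable_pi_lambda _ fun i => measurable_pi_lambda _ fun v => ?_
    exact (measurable_pi_apply (f ∘ v)).comp ((measurable_pi_apply i).comp measurable_fst)
  · refine measurable_pi_lambda _ fun i => measurable_pi_lambda _ fun j => ?_
    exact m_eq _ _

theorem m_lb {s : X → LC C} (hs : Measurable s) (i j : Fin 4) :
    Measurable fun a => lb (s a) i j :=
  (m_lab ![i, j]).comp (measurable_snd.comp (measurable_snd.comp hs))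

theorem m_b {s : X → LC C} (hs : Measurable s) (i j : Fin 4) :
    Measurable fun a => (s a).2.2.2 i j :=
  (m_eq i j).comp (measurable_snd.comp (measurable_snd.comp hs))

theorem m_eqf {Y : Type} [MeasurableSpace Y] [MeasurableEq Y] {f g : X → Y} (hf : Measurable f)
    (hg : Measurable g) : Measurable fun a => f a = g a :=
  measurableSet_setOfPred.1 (measurableSet_eq_fun hf hg)

theorem m_eqv {s : X → LC C} (hs : Measurable s) (i j : Fin 4) :
    Measurable fun a => eqv (s a) i j := m_eqf (m_b hs i j) measurable_const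

theorem m_mem {Y : Type} [MeasurableSpace Y] {f : X → Y} (hf : Measurable f) {A : Set Y}
    (hA : MeasurableSet A) : Measurable fun a => f a ∈ A :=
  measurableSet_setOfPred.1 (hf hA)

theorem m_1 {s : X → LC C} (hs : Measurable s) : Measurable fun a => (s a).1 :=
  measurable_fst.comp hs

theorem m_21 {s : X → LC C} (hs : Measurable s) : Measurable fun a => (s a).2.1 :=
  measurable_fst.comp (measurable_snd.comp hs)

theorem m_22 {s : X → LC C} (hs : Measurable s) : Measurable fun a => (s a).2.2 :=
  measurable_snd.comp (measurable_snd.comp hs)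

theorem m_Row [MeasurableEq C] {s s' : X → LC C} (hs : Measurable s) (hs' : Measurable s')
    (i : Fin 4) : Measurable fun a => Row (s a) (s' a) i := by
  unfold Row
  refine Measurable.forall fun k => Measurable.imp measurable_const ?_
  exact (m_eqf (m_lb hs _ _) (m_lb hs' _ _)).and
    ((m_eqf (m_lb hs _ _) (m_lb hs' _ _)).and (m_eqf (m_b hs _ _) (m_b hs' _ _)))

theorem m_Tk {β : ℕ → Set (TB C 3)} (hβ : ∀ n, MeasurableSet (β n)) {p : X → LC C}
    (hp : Measurable p) {N : X → ℕ} (hN : Measurable N) :
    Measurable fun a => Tk β (p a) (N a) := by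
  have h1 : (fun a => Tk β (p a) (N a)) = fun a => ∃ k : ℕ, N a = k ∧ Tk β (p a) k := by
    funext a
    simp
  rw [h1]
  refine Measurable.exists fun k => (m_eqf hN measurable_const).and ?_
  match k with
  | 0 => exact m_eqv hp 0 2
  | 1 => exact m_eqv hp 1 2
  | k + 2 => exact m_mem ((m_reidx _).comp (m_22 hp)) (hβ k)

theorem m_Tas' {β : ℕ → Set (TB C 3)} {len : C → ℕ} (hβ : ∀ n, MeasurableSet (β n))
    (hl : Measurable len) {s p q : X → LC C} (hs : Measurable s) (hp : Measurable p)
    (hq : Measurable q) : Measurable fun a => Tas' β len (s a) (p a) (q a) := by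
  unfold Tas'
  have h1 : ∀ (b : Bool), Measurable fun a => (s a).1 = b := fun b =>
    m_eqf (m_1 hs) measurable_const
  have h2 : ∀ (b : Bool), Measurable fun a => (s a).2.1 = b := fun b =>
    m_eqf (m_21 hs) measurable_const
  have h3 : ∀ (b : Bool), Measurable fun a => (p a).2.1 = b := fun b =>
    m_eqf (m_21 hp) measurable_const
  have h4 : Measurable fun a => (Nat.unpair (len (lb (s a) 2 2))).1 :=
    (Measurable.of_discrete (f := fun n : ℕ => (Nat.unpair n).1)).comp (hl.comp (m_lb hs _ _))
  have h5 : Measurable fun a => len (lb (p a) 0 0) + 1 :=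
    (Measurable.of_discrete (f := fun n : ℕ => n + 1)).comp (hl.comp (m_lb hp _ _))
  exact ((h1 _).imp ((h2 _).imp ((h3 _).and ((m_eqv hp _ _).and (m_eqv hq _ _))))).and
    (((h1 _).imp ((h2 _).imp ((h3 _).and (m_Tk hβ hp h4)))).and
    (((h1 _).imp ((h2 _).imp ((h3 _).and (m_eqf (hl.comp (m_lb hp _ _)) h5)))).and
    ((h1 _).imp ((h2 _).imp (h3 _)))))

end

theorem pf_MSA : T_MSA := by
  intro C _ _ α β len hα hβ hl
  have hL : ∀ {n : ℕ} (i j : Fin n), Measurable fun t : TB (LC C) n => LL t i j :=
    fun i j => m_lab _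
  refine ⟨?_, ?_, ?_, ?_, ?_⟩
  · refine measurableSet_setOfPred.2 ?_
    have h01 := hL (n := 2) 0 1
    have h10 := hL (n := 2) 1 0
    have h00 := hL (n := 2) 0 0
    have e := fun i j : Fin 4 => m_eqv h01 i j
    refine (((m_eqf (m_1 h10) (m_21 h01)).and ((m_eqf (m_21 h10) (m_1 h01)).and
      (m_eqf (m_22 h10) ((m_reidx _).comp (m_22 h01)))))).and ?_
    refine (((m_eqf (m_1 h00) (m_1 h01)).and ((m_eqf (m_21 h00) (m_1 h01)).and
      (m_eqf (m_22 h00) ((m_reidx _).comp (m_22 h01)))))).and ?_
    refine ((m_eqf (m_1 h01) measurable_const).imp (e 0 1)).and ?_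
    refine ((m_eqf (m_eq 0 1) measurable_const).imp ((m_eqf (m_1 h01) (m_21 h01)).imp
      ((e 0 2).imp ((e 1 3).imp measurable_const)))).and ?_
    refine Measurable.and ?_ ?_
    · refine (Measurable.forall fun i => e i i).and ?_
      refine (Measurable.forall fun i => Measurable.forall fun j => (e i j).imp (e j i)).and ?_
      refine (Measurable.forall fun i => Measurable.forall fun j => Measurable.forall fun k =>
        (e i j).imp ((e j k).imp (e i k))).and ?_
      exact Measurable.forall fun i => Measurable.forall fun j => Measurable.forall fun k =>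
        Measurable.forall fun l => (e i j).imp ((e k l).imp
          (m_eqf (m_lb h01 _ _) (m_lb h01 _ _)))
    · exact Measurable.forall fun f => m_mem ((m_reidx f).comp (m_22 h01)) hα
  · exact measurableSet_setOfPred.2 (m_Tas' hβ hl (hL 0 1) (hL 0 2) (hL 1 2))
  · exact measurableSet_setOfPred.2 (m_Row measurable_fst measurable_snd 0)
  · exact measurableSet_setOfPred.2 (m_Row measurable_fst measurable_snd 1)
  · refine measurableSet_setOfPred.2 ?_
    exact Measurable.forall fun i => Measurable.imp measurable_const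
      ((m_eqf (m_21 (hL 0 1)) measurable_const).imp ((m_eqv (hL 0 1) _ _).imp
        (m_Row (hL 0 2) (hL 1 2) i)))

end Pool.Agent.H74.TU
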